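import Pool.Agent.W957.MF.Stm

/-!
Project MF (helper957), subtask MF-W2: the wedge with a cut tip.
-/

set_option autoImplicit false

namespace Pool.Agent.W304.MF

open Finset Pool.Agent.W957.MF

/-! ### Sign-reversing involutions -/

theorem toggle (S : Finset ℕ) (P : Finset ℕ → Prop) [DecidablePred P] (c : Finset ℕ → ℕ)
    (hc : ∀ T ⊆ S, c T ∈ S)
    (h1 : ∀ T ⊆ S, c T ∈ T → c (T.erase (c T)) = c T)
    (h2 : ∀ T ⊆ S, c T ∉ T → c (insert (c T) T) = c T)
    (h3 : ∀ T ⊆ S, c T ∉ T → (P (insert (c T) T) ↔ P T)) :
    ∑ T ∈ S.powerset.filter P, (-1 : ℤ) ^ T.card = 0 := by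
  refine Finset.sum_involution
    (fun T _ => if c T ∈ T then T.erase (c T) else insert (c T) T) ?_ ?_ ?_ ?_
  · intro T hT
    by_cases h : c T ∈ T
    · simp only [if_pos h]
      have h4 : (T.erase (c T)).card + 1 = T.card := Finset.card_erase_add_one h
      rw [← h4, pow_succ]
      ring
    · simp only [if_neg h]
      rw [Finset.card_insert_of_notMem h, pow_succ]
      ring
  · intro T hT _
    by_cases h : c T ∈ T
    · simp only [if_pos h]
      intro h5
      rw [← h5] at h
      exact (Finset.notMem_erase _ _) (by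
        rw [h5] at h ⊢
        exact h)
    · simp only [if_neg h]
      intro h5
      have h6 : c T ∈ insert (c T) T := Finset.mem_insert_self _ _
      rw [h5] at h6
      exact h h6
  · intro T hT
    rw [mem_filter, mem_powerset] at hT ⊢
    by_cases h : c T ∈ T
    · simp only [if_pos h]
      have h6 : T.erase (c T) ⊆ S := (Finset.erase_subset _ _).trans hT.1
      refine ⟨h6, ?_⟩
      have h7 := h3 _ h6 (by
        rw [h1 T hT.1 h]
        exact Finset.notMem_erase _ _)
      rw [h1 T hT.1 h, Finset.insert_erase h] at h7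
      exact h7.1 hT.2
    · simp only [if_neg h]
      refine ⟨Finset.insert_subset (hc T hT.1) hT.1, (h3 T hT.1 h).2 hT.2⟩
  · intro T hT
    rw [mem_filter, mem_powerset] at hT
    by_cases h : c T ∈ T
    · simp only [if_pos h]
      rw [h1 T hT.1 h, if_neg (Finset.notMem_erase _ _), Finset.insert_erase h]
    · simp only [if_neg h]
      rw [h2 T hT.1 h, if_pos (Finset.mem_insert_self _ _), Finset.erase_insert h]

theorem toggle_const (S : Finset ℕ) (P : Finset ℕ → Prop) [DecidablePred P] (c : ℕ) (hc : c ∈ S)
    (h3 : ∀ T ⊆ S, c ∉ T → (P (insert c T) ↔ P T)) :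
    ∑ T ∈ S.powerset.filter P, (-1 : ℤ) ^ T.card = 0 :=
  toggle S P (fun _ => c) (fun _ _ => hc) (fun _ _ _ => rfl) (fun _ _ _ => rfl) h3

theorem mu_one (σ : Equiv.Perm (Fin 1)) : mu 1 σ = 1 := by
  rw [mu, if_pos rfl]

/-- if all middle terms vanish then `|mu| = n - 1` -/
theorem reduce (h1 : S_W) (h2 : S_PAT) (z : Conf) (S : Finset ℕ) (hGP : GP z S) (n : ℕ)
    (hn : S.card = n) (h2n : 2 ≤ n)
    (hg : ∀ (k : ℕ) (σ : Equiv.Perm (Fin k)), 2 ≤ k → k < n → g z S σ = 0) :
    ∃ σ : Equiv.Perm (Fin n), Occ z S σ ∧ |mu n σ| = (n : ℤ) - 1 := by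
  classical
  subst hn
  obtain ⟨π, hπ, huniq, -⟩ := h2 z S hGP
  refine ⟨π, hπ, ?_⟩
  have hsum := h1 z S hGP
  have hsplit : ∑ k ∈ Icc 1 S.card, ∑ σ : Equiv.Perm (Fin k), mu k σ * g z S σ =
      -1 + mu S.card π * (-1) ^ S.card := by
    have e1 : ∑ k ∈ Icc 1 S.card, ∑ σ : Equiv.Perm (Fin k), mu k σ * g z S σ =
        ∑ k ∈ ({1, S.card} : Finset ℕ), ∑ σ : Equiv.Perm (Fin k), mu k σ * g z S σ := by
      symm
      apply Finset.sum_subset
      · intro k hk
        rw [mem_insert, mem_singleton] at hk
        rw [mem_Icc]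
        omega
      · intro k hk hk'
        rw [mem_Icc] at hk
        rw [mem_insert, mem_singleton] at hk'
        push Not at hk'
        refine Finset.sum_eq_zero (fun σ _ => ?_)
        rw [hg k σ (by omega) (by omega), mul_zero]
    rw [e1, Finset.sum_pair (by omega)]
    congr 1
    · -- length one
      rw [Fintype.sum_unique, mu_one, one_mul]
      unfold g
      have e2 : S.powerset.filter (fun T => Occ z T (default : Equiv.Perm (Fin 1))) =
          S.powerset.erase ∅ := by
        ext T
        rw [mem_filter, mem_erase, mem_powerset]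
        constructor
        · rintro ⟨h3, f, hf, -⟩
          refine ⟨?_, h3⟩
          rintro rfl
          exact absurd (hf 0) (Finset.notMem_empty _)
        · rintro ⟨h3, h4⟩
          obtain ⟨a, ha⟩ := Finset.nonempty_iff_ne_empty.2 h3
          refine ⟨h4, fun _ => a, fun _ => ha, fun i j => ?_, fun i j => ?_⟩
          · rw [Subsingleton.elim i j]
            simp
          · rw [Subsingleton.elim i j]
            simp
      rw [e2]
      have e3 := Finset.sum_erase_eq_sub (f := fun T : Finset ℕ => (-1 : ℤ) ^ T.card)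
        (Finset.empty_mem_powerset S)
      rw [e3, Finset.sum_powerset_neg_one_pow_card_of_nonempty
        (Finset.card_pos.1 (by omega))]
      simp
    · -- full length
      rw [Finset.sum_eq_single π]
      · congr 1
        unfold g
        have e2 : S.powerset.filter (fun T => Occ z T π) = {S} := by
          ext T
          rw [mem_filter, mem_singleton, mem_powerset]
          constructor
          · rintro ⟨h3, f, hf, hx, -⟩
            refine Finset.eq_of_subset_of_card_le h3 ?_
            have hinj : Function.Injective f := by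
              intro i j hij
              rcases lt_trichotomy i j with h | h | h
              · have := (hx i j).1 h
                rw [hij] at this
                exact absurd this (lt_irrefl _)
              · exact h
              · have := (hx j i).1 h
                rw [hij] at this
                exact absurd this (lt_irrefl _)
            have h4 := Finset.card_le_card_of_injOn (s := (Finset.univ : Finset (Fin S.card)))
              (t := T) f (fun i _ => hf i) (hinj.injOn)
            rwa [Finset.card_univ, Fintype.card_fin] at h4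
          · rintro rfl
            exact ⟨Finset.Subset.refl _, hπ⟩
        rw [e2, Finset.sum_singleton]
      · intro σ _ hσ
        have e3 : g z S σ = 0 := by
          unfold g
          apply Finset.sum_eq_zero
          intro T hT
          exfalso
          rw [mem_filter, mem_powerset] at hT
          obtain ⟨h3, f, hf, hx, hy⟩ := hT
          have hinj : Function.Injective f := by
            intro i j hij
            rcases lt_trichotomy i j with h | h | h
            · have := (hx i j).1 h
              rw [hij] at this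
              exact absurd this (lt_irrefl _)
            · exact h
            · have := (hx j i).1 h
              rw [hij] at this
              exact absurd this (lt_irrefl _)
          have h4 := Finset.card_le_card_of_injOn (s := (Finset.univ : Finset (Fin S.card)))
              (t := T) f (fun i _ => hf i) (hinj.injOn)
          rw [Finset.card_univ, Fintype.card_fin] at h4
          have h5 := Finset.eq_of_subset_of_card_le h3 h4
          subst h5
          exact hσ (huniq σ ⟨f, hf, hx, hy⟩)
        rw [e3, mul_zero]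
      · intro h
        exact absurd (Finset.mem_univ _) h
  rw [hsplit] at hsum
  have e4 : mu S.card π * (-1) ^ S.card = -((S.card : ℤ) - 1) := by linarith
  have e5 : |mu S.card π * (-1) ^ S.card| = |mu S.card π| := by
    rw [abs_mul, abs_pow, abs_neg, abs_one, one_pow, mul_one]
  rw [← e5, e4, abs_neg, abs_of_nonneg]
  have : (2 : ℤ) ≤ S.card := by exact_mod_cast h2n
  linarith

/-! ### The wedge with a cut tip -/

/-- comparison of the heights of the points `a < b` -/
def RR (t a b : ℕ) : Prop := a % 2 = 0 ∨ b = 2 * t + 1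

theorem w2_lt {z : Conf} {t : ℕ} (hz : W2c z t) {a b : ℕ} (ha : 1 ≤ a) (hab : a < b)
    (hb : b ≤ 2 * t + 2) (h : RR t a b) : z false a < z false b := by
  obtain ⟨-, h2, h3, h4, h5, h6⟩ := hz
  by_cases hb1 : b = 2 * t + 1
  · subst hb1
    exact h6 a ha (by omega) (by omega)
  have ha0 : a % 2 = 0 := by
    rcases h with h | h
    · exact h
    · exact absurd h hb1
  by_cases hb2 : b = 2 * t + 2
  · subst hb2
    exact h5 a ha (by omega) ha0
  by_cases hb3 : b % 2 = 0
  · exact h3 a b ha hab (by omega) ha0 hb3
  · exact (h5 a ha (by omega) ha0).trans (h4 b (by omega) (by omega) (by omega))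

theorem w2_gt {z : Conf} {t : ℕ} (hz : W2c z t) {a b : ℕ} (ha : 1 ≤ a) (hab : a < b)
    (hb : b ≤ 2 * t + 2) (h : ¬ RR t a b) : z false b < z false a := by
  obtain ⟨-, h2, h3, h4, h5, h6⟩ := hz
  unfold RR at h
  push Not at h
  obtain ⟨h7, h8⟩ := h
  by_cases ha1 : a = 2 * t + 1
  · subst ha1
    exact h6 b (by omega) hb (by omega)
  by_cases hb2 : b = 2 * t + 2
  · subst hb2
    exact h4 a ha (by omega) (by omega)
  by_cases hb3 : b % 2 = 0
  · exact (h5 b (by omega) (by omega) hb3).trans (h4 a ha (by omega) (by omega))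
  · exact h2 a b ha hab (by omega) (by omega) (by omega)

theorem w2_x {z : Conf} {t : ℕ} (hz : W2c z t) {a b : ℕ} (ha : a ∈ Icc 1 (2 * t + 2))
    (hb : b ∈ Icc 1 (2 * t + 2)) : z true a < z true b ↔ a < b := by
  rw [mem_Icc] at ha hb
  constructor
  · intro h
    by_contra hcon
    rcases Nat.lt_or_ge b a with h1 | h1
    · exact absurd (hz.1 b a (by omega) h1 (by omega)) (not_lt.2 h.le)
    · have : a = b := by omega
      subst this
      exact absurd h (lt_irrefl _)
  · intro h
    exact hz.1 a b ha.1 h hb.2

theorem w2_gp {z : Conf} {t : ℕ} (hz : W2c z t) : GP z (Icc 1 (2 * t + 2)) := by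
  intro b i hi j hj hij
  rw [mem_coe] at hi hj
  by_contra hne
  have key : ∀ i j, i ∈ Icc 1 (2 * t + 2) → j ∈ Icc 1 (2 * t + 2) → i < j → z b i ≠ z b j := by
    intro i j hi hj h
    have hi' := mem_Icc.1 hi
    have hj' := mem_Icc.1 hj
    cases b with
    | true => exact ne_of_lt ((w2_x hz hi hj).2 h)
    | false =>
      by_cases hR : RR t i j
      · exact ne_of_lt (w2_lt hz hi'.1 h hj'.2 hR)
      · exact (ne_of_lt (w2_gt hz hi'.1 h hj'.2 hR)).symm
  rcases Nat.lt_or_gt_of_ne hne with h | h
  · exact key i j hi hj h hij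
  · exact key j i hj hi h hij.symm

/-- combinatorial form of the occurrences -/
def IsOc (t : ℕ) {k : ℕ} (σ : Equiv.Perm (Fin k)) (f : Fin k → ℕ) : Prop :=
  StrictMono f ∧ ∀ i j, i < j → (σ i < σ j ↔ RR t (f i) (f j))

def Oc (t : ℕ) (T : Finset ℕ) {k : ℕ} (σ : Equiv.Perm (Fin k)) : Prop :=
  ∃ f : Fin k → ℕ, (∀ i, f i ∈ T) ∧ IsOc t σ f

theorem occ_iff {z : Conf} {t : ℕ} (hz : W2c z t) {T : Finset ℕ} (hT : T ⊆ Icc 1 (2 * t + 2))
    {k : ℕ} (σ : Equiv.Perm (Fin k)) : Occ z T σ ↔ Oc t T σ := by
  constructor
  · rintro ⟨f, hf, hx, hy⟩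
    have hm : StrictMono f := fun i j hij =>
      (w2_x hz (hT (hf i)) (hT (hf j))).1 ((hx i j).1 hij)
    refine ⟨f, hf, hm, fun i j hij => ?_⟩
    have hi := mem_Icc.1 (hT (hf i))
    have hj := mem_Icc.1 (hT (hf j))
    rw [hy i j]
    constructor
    · intro h
      by_contra hR
      exact absurd (w2_gt hz hi.1 (hm hij) hj.2 hR) (not_lt.2 h.le)
    · intro h
      exact w2_lt hz hi.1 (hm hij) hj.2 h
  · rintro ⟨f, hf, hm, hR⟩
    refine ⟨f, hf, fun i j => ?_, fun i j => ?_⟩
    · rw [w2_x hz (hT (hf i)) (hT (hf j))]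
      exact hm.lt_iff_lt.symm
    · have hi := mem_Icc.1 (hT (hf i))
      have hj := mem_Icc.1 (hT (hf j))
      rcases lt_trichotomy i j with h | h | h
      · rw [hR i j h]
        constructor
        · intro h1
          exact w2_lt hz hi.1 (hm h) hj.2 h1
        · intro h1
          by_contra hcon
          exact absurd (w2_gt hz hi.1 (hm h) hj.2 hcon) (not_lt.2 h1.le)
      · subst h
        simp
      · constructor
        · intro h1
          have h2 : ¬ σ j < σ i := not_lt.2 h1.le
          rw [hR j i h] at h2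
          exact w2_gt hz hj.1 (hm h) hi.2 h2
        · intro h1
          have h2 : ¬ σ j < σ i := by
            rw [hR j i h]
            intro h3
            exact absurd (w2_lt hz hj.1 (hm h) hi.2 h3) (not_lt.2 h1.le)
          rcases lt_or_eq_of_le (not_lt.1 h2) with h3 | h3
          · exact h3
          · exact absurd (σ.injective h3) (ne_of_gt h)

open Classical in
theorem g_eq {z : Conf} {t : ℕ} (hz : W2c z t) {k : ℕ} (σ : Equiv.Perm (Fin k)) :
    g z (Icc 1 (2 * t + 2)) σ =
      ∑ T ∈ (Icc 1 (2 * t + 2)).powerset.filter (fun T => Oc t T σ), (-1 : ℤ) ^ T.card := by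
  unfold g
  congr 1
  apply Finset.filter_congr
  intro T hT
  exact occ_iff hz (mem_powerset.1 hT) σ

open Classical in
/-- an unused point kills the sum -/
theorem unused (t : ℕ) {k : ℕ} (σ : Equiv.Perm (Fin k)) (c : ℕ) (hc : c ∈ Icc 1 (2 * t + 2))
    (h : ∀ f : Fin k → ℕ, (∀ i, f i ∈ Icc 1 (2 * t + 2)) → IsOc t σ f → ∀ i, f i ≠ c) :
    ∑ T ∈ (Icc 1 (2 * t + 2)).powerset.filter (fun T => Oc t T σ), (-1 : ℤ) ^ T.card = 0 := by
  refine toggle_const _ _ c hc (fun T hT hcT => ⟨?_, ?_⟩)
  · rintro ⟨f, hf, ho⟩
    refine ⟨f, fun i => ?_, ho⟩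
    have h1 := hf i
    rw [mem_insert] at h1
    rcases h1 with h1 | h1
    · refine absurd h1 (h f (fun j => ?_) ho i)
      exact (Finset.insert_subset hc hT) (hf j)
    · exact h1
  · rintro ⟨f, hf, ho⟩
    exact ⟨f, fun i => mem_insert_of_mem (hf i), ho⟩

open Classical in
/-- `12` -/
theorem two_inc (t : ℕ) (ht : 1 ≤ t) (σ : Equiv.Perm (Fin 2)) (hσ : σ 0 < σ 1) :
    ∑ T ∈ (Icc 1 (2 * t + 2)).powerset.filter (fun T => Oc t T σ), (-1 : ℤ) ^ T.card = 0 := by
  have key : ∀ T : Finset ℕ, Oc t T σ ↔ ∃ a ∈ T, ∃ b ∈ T, a < b ∧ RR t a b := by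
    intro T
    constructor
    · rintro ⟨f, hf, hm, hR⟩
      exact ⟨f 0, hf 0, f 1, hf 1, hm (by decide), (hR 0 1 (by decide)).1 hσ⟩
    · rintro ⟨a, ha, b, hb, hab, hR⟩
      refine ⟨![a, b], ?_, ?_, ?_⟩
      · intro i
        fin_cases i
        · exact ha
        · exact hb
      · intro i j hij
        fin_cases i <;> fin_cases j <;> simp_all
      · intro i j hij
        fin_cases i <;> fin_cases j <;> simp_all
  refine toggle _ _ (fun T => if 2 * t + 1 ∈ T then 2 * t + 2 else 1) ?_ ?_ ?_ ?_
  · intro T _
    try dsimp only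
    split_ifs
    · rw [mem_Icc]
      omega
    · rw [mem_Icc]
      omega
  · intro T _ h
    try dsimp only at h ⊢
    by_cases hq : 2 * t + 1 ∈ T
    · rw [if_pos hq] at h ⊢
      rw [if_pos]
      rw [mem_erase]
      exact ⟨by omega, hq⟩
    · rw [if_neg hq] at h ⊢
      rw [if_neg]
      rw [mem_erase]
      push Not
      exact fun _ => hq
  · intro T _ h
    try dsimp only at h ⊢
    by_cases hq : 2 * t + 1 ∈ T
    · rw [if_pos hq] at h ⊢
      rw [if_pos]
      rw [mem_insert]
      exact Or.inr hq
    · rw [if_neg hq] at h ⊢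
      rw [if_neg]
      rw [mem_insert]
      push Not
      exact ⟨by omega, hq⟩
  · intro T hTS h
    try dsimp only at h ⊢
    rw [key, key]
    by_cases hq : 2 * t + 1 ∈ T
    · rw [if_pos hq] at h ⊢
      constructor
      · rintro ⟨a, ha, b, hb, hab, hR⟩
        rw [mem_insert] at ha hb
        have hb' : b ≤ 2 * t + 2 := by
          rcases hb with hb | hb
          · omega
          · exact (mem_Icc.1 (hTS hb)).2
        rcases ha with ha | ha
        · omega
        · have ha1 : a ≠ 2 * t + 1 := by
            rintro rfl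
            unfold RR at hR
            omega
          exact ⟨a, ha, 2 * t + 1, hq, by omega, Or.inr rfl⟩
      · rintro ⟨a, ha, b, hb, hab, hR⟩
        exact ⟨a, mem_insert_of_mem ha, b, mem_insert_of_mem hb, hab, hR⟩
    · rw [if_neg hq] at h ⊢
      constructor
      · rintro ⟨a, ha, b, hb, hab, hR⟩
        rw [mem_insert] at ha hb
        have hb0 : b ∈ T := by
          rcases hb with hb | hb
          · subst hb
            rcases ha with ha | ha
            · omega
            · have := mem_Icc.1 (hTS ha)
              omega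
          · exact hb
        have hbq : b ≠ 2 * t + 1 := by
          rintro rfl
          exact hq hb0
        rcases ha with ha | ha
        · subst ha
          unfold RR at hR
          omega
        · exact ⟨a, ha, b, hb0, hab, hR⟩
      · rintro ⟨a, ha, b, hb, hab, hR⟩
        exact ⟨a, mem_insert_of_mem ha, b, mem_insert_of_mem hb, hab, hR⟩

open Classical in
/-- `21` -/
theorem two_dec (t : ℕ) (ht : 1 ≤ t) (σ : Equiv.Perm (Fin 2)) (hσ : ¬ σ 0 < σ 1) :
    ∑ T ∈ (Icc 1 (2 * t + 2)).powerset.filter (fun T => Oc t T σ), (-1 : ℤ) ^ T.card = 0 := by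
  have key : ∀ T : Finset ℕ, Oc t T σ ↔ ∃ a ∈ T, ∃ b ∈ T, a < b ∧ ¬ RR t a b := by
    intro T
    constructor
    · rintro ⟨f, hf, hm, hR⟩
      refine ⟨f 0, hf 0, f 1, hf 1, hm (by decide), ?_⟩
      rw [← hR 0 1 (by decide)]
      exact hσ
    · rintro ⟨a, ha, b, hb, hab, hR⟩
      refine ⟨![a, b], ?_, ?_, ?_⟩
      · intro i
        fin_cases i
        · exact ha
        · exact hb
      · intro i j hij
        fin_cases i <;> fin_cases j <;> simp_all
      · intro i j hij
        fin_cases i <;> fin_cases j <;> simp_all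
  refine toggle _ _ (fun T => if 2 * t + 2 ∈ T then 2 else 2 * t + 1) ?_ ?_ ?_ ?_
  · intro T _
    try dsimp only
    split_ifs
    · rw [mem_Icc]
      omega
    · rw [mem_Icc]
      omega
  · intro T _ h
    try dsimp only at h ⊢
    by_cases hq : 2 * t + 2 ∈ T
    · rw [if_pos hq] at h ⊢
      rw [if_pos]
      rw [mem_erase]
      exact ⟨by omega, hq⟩
    · rw [if_neg hq] at h ⊢
      rw [if_neg]
      rw [mem_erase]
      push Not
      exact fun _ => hq
  · intro T _ h
    try dsimp only at h ⊢
    by_cases hq : 2 * t + 2 ∈ T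
    · rw [if_pos hq] at h ⊢
      rw [if_pos]
      rw [mem_insert]
      exact Or.inr hq
    · rw [if_neg hq] at h ⊢
      rw [if_neg]
      rw [mem_insert]
      push Not
      exact ⟨by omega, hq⟩
  · intro T hTS h
    try dsimp only at h ⊢
    rw [key, key]
    by_cases hq : 2 * t + 2 ∈ T
    · rw [if_pos hq] at h ⊢
      constructor
      · rintro ⟨a, ha, b, hb, hab, hR⟩
        unfold RR at hR
        rw [mem_insert] at ha hb
        have hb' : b ≤ 2 * t + 2 := by
          rcases hb with hb | hb
          · omega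
          · exact (mem_Icc.1 (hTS hb)).2
        rcases ha with ha | ha
        · omega
        · refine ⟨a, ha, 2 * t + 2, hq, by omega, ?_⟩
          unfold RR
          omega
      · rintro ⟨a, ha, b, hb, hab, hR⟩
        exact ⟨a, mem_insert_of_mem ha, b, mem_insert_of_mem hb, hab, hR⟩
    · rw [if_neg hq] at h ⊢
      constructor
      · rintro ⟨a, ha, b, hb, hab, hR⟩
        have hR' := hR
        unfold RR at hR
        rw [mem_insert] at ha hb
        have hb0 : b ∈ T := by
          rcases hb with hb | hb
          · omega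
          · exact hb
        rcases ha with ha | ha
        · have := (mem_Icc.1 (hTS hb0)).2
          have hb2 : b = 2 * t + 2 := by omega
          rw [hb2] at hb0
          exact absurd hb0 hq
        · exact ⟨a, ha, b, hb0, hab, hR'⟩
      · rintro ⟨a, ha, b, hb, hab, hR⟩
        exact ⟨a, mem_insert_of_mem ha, b, mem_insert_of_mem hb, hab, hR⟩

open Classical in
/-- second last entry maximal, first entry second largest -/
theorem both (h3 : S_SUBW) (t m : ℕ) (hm1 : 1 ≤ m) (hmt : m < 2 * t)
    (σ : Equiv.Perm (Fin (m + 2)))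
    (hmax : ∀ j, j ≠ Fin.castSucc (Fin.last m) → σ j < σ (Fin.castSucc (Fin.last m)))
    (hfirst : σ (Fin.last (m + 1)) < σ 0) :
    ∑ T ∈ (Icc 1 (2 * t + 2)).powerset.filter (fun T => Oc t T σ), (-1 : ℤ) ^ T.card = 0 := by
  set M : Fin (m + 2) := Fin.castSucc (Fin.last m) with hM
  set E : Fin (m + 2) := Fin.last (m + 1) with hE
  have hMv : M.val = m := by simp [hM]
  have hEv : E.val = m + 1 := by simp [hE]
  have h0M : (0 : Fin (m + 2)) < M := by
    rw [Fin.lt_def, hMv]
    simp only [Fin.val_zero]
    omega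
  have hME : M < E := by
    rw [Fin.lt_def, hMv, hEv]
    omega
  -- every occurrence uses both special points
  have hq : ∀ f : Fin (m + 2) → ℕ, (∀ i, f i ∈ Icc 1 (2 * t + 2)) → IsOc t σ f →
      f M = 2 * t + 1 ∧ f E = 2 * t + 2 := by
    intro f hf hf2
    obtain ⟨hmono, hR⟩ := hf2
    have h1 : ¬ σ M < σ E := not_lt.2 (hmax E (ne_of_gt hME)).le
    rw [hR M E hME] at h1
    have h2 := (hR 0 M h0M).1 (hmax 0 (ne_of_lt h0M))
    have h3' : ¬ σ 0 < σ E := not_lt.2 hfirst.le
    rw [hR 0 E (h0M.trans hME)] at h3'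
    have h4 : f M = 2 * t + 1 := by
      rcases h2 with h2 | h2
      · exact absurd (Or.inl h2) h3'
      · exact h2
    have h5 := hmono hME
    have h6 := (mem_Icc.1 (hf E)).2
    exact ⟨h4, by omega⟩
  by_cases hex : ∃ f : Fin (m + 2) → ℕ, (∀ i, f i ∈ Icc 1 (2 * t + 2)) ∧ IsOc t σ f
  swap
  · apply Finset.sum_eq_zero
    intro T hT
    exfalso
    rw [mem_filter, mem_powerset] at hT
    obtain ⟨hT1, f, hf, ho⟩ := hT
    exact hex ⟨f, fun i => hT1 (hf i), ho⟩
  obtain ⟨f0, hf0, ho0⟩ := hex
  obtain ⟨hqM, hqE⟩ := hq f0 hf0 ho0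
  -- the word
  set ι : Fin m → Fin (m + 2) := fun a => ⟨a.val, by omega⟩ with hι
  set u : Fin m → Bool := fun a => decide (f0 (ι a) % 2 = 1) with hu
  have hιE : ∀ a, ι a < E := by
    intro a
    rw [Fin.lt_def, hEv]
    have := a.2
    change a.val < m + 1
    omega
  have hιM : ∀ a, ι a < M := by
    intro a
    rw [Fin.lt_def, hMv]
    exact a.2
  rw [← h3 (2 * t) m u hmt]
  refine Finset.sum_nbij' (fun T => T ∩ Icc 1 (2 * t))
    (fun T => insert (2 * t + 1) (insert (2 * t + 2) T)) ?_ ?_ ?_ ?_ ?_
  · intro T hT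
    rw [mem_filter, mem_powerset] at hT ⊢
    obtain ⟨hT1, f, hf, ho⟩ := hT
    obtain ⟨hM', hE'⟩ := hq f (fun i => hT1 (hf i)) ho
    refine ⟨Finset.inter_subset_right, fun a => f (ι a), ?_, ?_, ?_⟩
    · intro a b hab
      exact ho.1 (by
        rw [Fin.lt_def]
        exact hab)
    · intro a
      rw [mem_inter]
      refine ⟨hf _, ?_⟩
      rw [mem_Icc]
      have h1 := (mem_Icc.1 (hT1 (hf (ι a)))).1
      have h2 := ho.1 (hιM a)
      rw [hM'] at h2
      exact ⟨h1, Nat.lt_succ_iff.1 h2⟩
    · intro a
      rw [hu]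
      dsimp only
      have h1 := ho.2 (ι a) E (hιE a)
      have h2 := ho0.2 (ι a) E (hιE a)
      rw [h1] at h2
      unfold RR at h2
      rw [hE', hqE] at h2
      have h4 : f (ι a) % 2 = 0 ↔ f0 (ι a) % 2 = 0 := by
        constructor
        · intro h5
          rcases h2.1 (Or.inl h5) with h6 | h6
          · exact h6
          · omega
        · intro h5
          rcases h2.2 (Or.inl h5) with h6 | h6
          · exact h6
          · omega
      rw [decide_eq_decide]
      omega
  · intro T hT
    rw [mem_filter, mem_powerset] at hT ⊢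
    obtain ⟨hT1, f, hmono, hf, hpar⟩ := hT
    refine ⟨?_, fun i => if h : i.val < m then f ⟨i.val, h⟩ else
      (if i.val = m then 2 * t + 1 else 2 * t + 2), ?_, ?_, ?_⟩
    · intro a ha
      rw [mem_insert, mem_insert] at ha
      rw [mem_Icc]
      rcases ha with ha | ha | ha
      · omega
      · omega
      · have := mem_Icc.1 (hT1 ha)
        omega
    · intro i
      dsimp only
      rw [mem_insert, mem_insert]
      split_ifs with h1 h2
      · exact Or.inr (Or.inr (hf _))
      · exact Or.inl rfl
      · exact Or.inr (Or.inl rfl)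
    · intro i j hij
      rw [Fin.lt_def] at hij
      have hi := i.2
      have hj := j.2
      dsimp only
      by_cases h1 : i.val < m
      · rw [dif_pos h1]
        have h5 := mem_Icc.1 (hT1 (hf ⟨i.val, h1⟩))
        by_cases h2 : j.val < m
        · rw [dif_pos h2]
          exact hmono (by
            rw [Fin.lt_def]
            exact hij)
        · rw [dif_neg h2]
          split_ifs
          · omega
          · omega
      · rw [dif_neg h1, dif_neg (by omega), if_pos (by omega), if_neg (by omega)]
        omega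
    · intro i j hij
      have hij' := hij
      rw [Fin.lt_def] at hij
      have hi := i.2
      have hj := j.2
      rw [ho0.2 i j hij']
      unfold RR
      dsimp only
      have hparity : (f0 i % 2 = 0 ↔ (if h : i.val < m then f ⟨i.val, h⟩ else
          (if i.val = m then 2 * t + 1 else 2 * t + 2)) % 2 = 0) := by
        by_cases h1 : i.val < m
        · rw [dif_pos h1]
          have h2 := hpar ⟨i.val, h1⟩
          rw [hu] at h2
          dsimp only at h2
          rw [decide_eq_decide] at h2
          have h4 : ι ⟨i.val, h1⟩ = i := by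
            rw [hι]
          rw [h4] at h2
          omega
        · have h2 : i = M := by
            apply Fin.ext
            rw [hMv]
            omega
          rw [dif_neg h1, h2, hqM, if_pos hMv]
      have hlast : (f0 j = 2 * t + 1 ↔ (if h : j.val < m then f ⟨j.val, h⟩ else
          (if j.val = m then 2 * t + 1 else 2 * t + 2)) = 2 * t + 1) := by
        by_cases h1 : j.val < m
        · rw [dif_pos h1]
          have h5 := mem_Icc.1 (hT1 (hf ⟨j.val, h1⟩))
          have h6 := ho0.1 (show j < M by
            rw [Fin.lt_def, hMv]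
            exact h1)
          rw [hqM] at h6
          omega
        · rw [dif_neg h1]
          by_cases h2 : j.val = m
          · rw [if_pos h2]
            have h4 : j = M := by
              apply Fin.ext
              rw [hMv]
              exact h2
            rw [h4, hqM]
          · rw [if_neg h2]
            have h4 : j = E := by
              apply Fin.ext
              rw [hEv]
              omega
            rw [h4, hqE]
      rw [hparity, hlast]
  · intro T hT
    rw [mem_filter, mem_powerset] at hT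
    obtain ⟨hT1, f, hf, ho⟩ := hT
    obtain ⟨hM', hE'⟩ := hq f (fun i => hT1 (hf i)) ho
    have h1 : 2 * t + 1 ∈ T := hM' ▸ hf M
    have h2 : 2 * t + 2 ∈ T := hE' ▸ hf E
    ext a
    rw [mem_insert, mem_insert, mem_inter, mem_Icc]
    constructor
    · rintro (rfl | rfl | ⟨h4, -⟩)
      · exact h1
      · exact h2
      · exact h4
    · intro h4
      have h5 := mem_Icc.1 (hT1 h4)
      by_cases h6 : a ≤ 2 * t
      · exact Or.inr (Or.inr ⟨h4, h5.1, h6⟩)
      · omega
  · intro T hT
    rw [mem_filter, mem_powerset] at hT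
    ext a
    rw [mem_inter, mem_insert, mem_insert, mem_Icc]
    constructor
    · rintro ⟨rfl | rfl | h4, h5⟩
      · omega
      · omega
      · exact h4
    · intro h4
      exact ⟨Or.inr (Or.inr h4), mem_Icc.1 (hT.1 h4)⟩
  · intro T hT
    rw [mem_filter, mem_powerset] at hT
    obtain ⟨hT1, f, hf, ho⟩ := hT
    obtain ⟨hM', hE'⟩ := hq f (fun i => hT1 (hf i)) ho
    have h1 : 2 * t + 1 ∈ T := hM' ▸ hf M
    have h2 : 2 * t + 2 ∈ T := hE' ▸ hf E
    have h4 : T = insert (2 * t + 1) (insert (2 * t + 2) (T ∩ Icc 1 (2 * t))) := by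
      ext a
      rw [mem_insert, mem_insert, mem_inter, mem_Icc]
      constructor
      · intro h4
        have h5 := mem_Icc.1 (hT1 h4)
        by_cases h6 : a ≤ 2 * t
        · exact Or.inr (Or.inr ⟨h4, h5.1, h6⟩)
        · omega
      · rintro (rfl | rfl | ⟨h4, -⟩)
        · exact h1
        · exact h2
        · exact h4
    have h5 : T.card = (T ∩ Icc 1 (2 * t)).card + 2 := by
      conv_lhs => rw [h4]
      rw [Finset.card_insert_of_notMem, Finset.card_insert_of_notMem]
      · rw [mem_inter, mem_Icc]
        omega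
      · rw [mem_insert, mem_inter, mem_Icc]
        omega
    rw [h5, pow_add]
    ring

open Classical in
theorem middle (h3 : S_SUBW) (t : ℕ) (ht : 1 ≤ t) (k : ℕ) (σ : Equiv.Perm (Fin k)) (hk : 2 ≤ k)
    (hk2 : k < 2 * t + 2) :
    ∑ T ∈ (Icc 1 (2 * t + 2)).powerset.filter (fun T => Oc t T σ), (-1 : ℤ) ^ T.card = 0 := by
  obtain ⟨m, rfl⟩ : ∃ m, k = m + 2 := ⟨k - 2, by omega⟩
  rcases Nat.eq_zero_or_pos m with rfl | hm
  · by_cases h : σ 0 < σ 1
    · exact two_inc t ht σ h
    · exact two_dec t ht σ h
  set M : Fin (m + 2) := Fin.castSucc (Fin.last m) with hM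
  set E : Fin (m + 2) := Fin.last (m + 1) with hE
  have hMv : M.val = m := by simp [hM]
  have hEv : E.val = m + 1 := by simp [hE]
  by_cases hA : ∃ j j' : Fin (m + 2), 0 < j ∧ 0 < j' ∧ j ≠ j' ∧ σ 0 < σ j ∧ σ 0 < σ j'
  · -- the first point is not used
    obtain ⟨j, j', hj, hj', hne, h1, h2⟩ := hA
    refine unused t σ 1 (mem_Icc.2 (by omega)) (fun f hf ho i hi => ?_)
    have hi0 : i = 0 := by
      by_contra hcon
      have h4 := ho.1 (Fin.pos_iff_ne_zero.2 hcon)
      have h5 := (mem_Icc.1 (hf 0)).1
      omega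
    subst hi0
    have h4 := (ho.2 0 j hj).1 h1
    have h5 := (ho.2 0 j' hj').1 h2
    unfold RR at h4 h5
    rw [hi] at h4 h5
    have h6 : f j = f j' := by
      rcases h4 with h4 | h4
      · omega
      · rcases h5 with h5 | h5
        · omega
        · rw [h4, h5]
    exact hne (ho.1.injective h6)
  -- the position of the maximum
  obtain ⟨P, hP⟩ : ∃ P : Fin (m + 2), σ P = Fin.last (m + 1) :=
    ⟨σ.symm (Fin.last (m + 1)), σ.apply_symm_apply _⟩
  have hmax : ∀ j, j ≠ P → σ j < σ P := by
    intro j hj
    rw [hP]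
    refine lt_of_le_of_ne (Fin.le_last _) ?_
    intro h
    exact hj (σ.injective (h.trans hP.symm))
  by_cases hPE : P = E
  · -- the last point is not used
    refine unused t σ (2 * t + 2) (mem_Icc.2 (by omega)) (fun f hf ho i hi => ?_)
    have hiE : i = E := by
      by_contra hcon
      have h4 : i < E := lt_of_le_of_ne (Fin.le_last _) hcon
      have h5 := ho.1 h4
      have h6 := (mem_Icc.1 (hf E)).2
      omega
    subst hiE
    have h01 : (0 : Fin (m + 2)) < 1 := by
      rw [Fin.lt_def]
      simp
    have h1E : (1 : Fin (m + 2)) < E := by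
      rw [Fin.lt_def, hEv]
      simp only [Fin.val_one]
      omega
    have h4 : σ 0 < σ E := by
      rw [← hPE]
      exact hmax 0 (by
        rw [hPE]
        exact ne_of_lt (h01.trans h1E))
    have h5 := (ho.2 0 E (h01.trans h1E)).1 h4
    have h6 : f 0 % 2 = 0 := by
      rcases h5 with h5 | h5
      · exact h5
      · omega
    have h7 := (ho.2 0 1 h01).2 (Or.inl h6)
    exact hA ⟨1, E, h01, h01.trans h1E, ne_of_lt h1E, h7, h4⟩
  by_cases hPM : P = M
  · refine both h3 t m hm (by omega) σ (fun j hj => ?_) ?_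
    · rw [← hM, ← hPM]
      exact hmax j (by
        rw [hPM]
        exact hj)
    · have h0M : (0 : Fin (m + 2)) < M := by
        rw [Fin.lt_def, hMv]
        simpa using hm
      have hME : M < E := by
        rw [Fin.lt_def, hMv, hEv]
        omega
      have h4 : σ 0 < σ M := by
        rw [← hPM]
        exact hmax 0 (by
          rw [hPM]
          exact ne_of_lt h0M)
      rcases lt_trichotomy (σ 0) (σ E) with h5 | h5 | h5
      · exact absurd ⟨M, E, h0M, h0M.trans hME, ne_of_lt hME, h4, h5⟩ hA
      · exact absurd (σ.injective h5) (ne_of_lt (h0M.trans hME))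
      · exact h5
  · -- the maximum of the configuration is not used
    refine unused t σ (2 * t + 1) (mem_Icc.2 (by omega)) (fun f hf ho i hi => ?_)
    have hiP : i = P := by
      by_contra hcon
      rcases lt_or_gt_of_ne hcon with h4 | h4
      · have h5 := ho.2 i P h4
        have h6 := h5.1 (hmax i hcon)
        have h7 := ho.1 h4
        have h8 := (mem_Icc.1 (hf P)).2
        unfold RR at h6
        omega
      · have h5 := ho.2 P i h4
        have h6 : ¬ σ P < σ i := not_lt.2 (hmax i hcon).le
        rw [h5] at h6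
        exact h6 (Or.inr hi)
    subst hiP
    have hlt : i.val < m := by
      have h4 := i.2
      have h5 : i.val ≠ m := fun h => hPM (Fin.ext (by rw [hMv]; exact h))
      have h6 : i.val ≠ m + 1 := fun h => hPE (Fin.ext (by rw [hEv]; exact h))
      omega
    have h4 := ho.1 (show i < M by
      rw [Fin.lt_def, hMv]
      exact hlt)
    have h5 := ho.1 (show M < E by
      rw [Fin.lt_def, hMv, hEv]
      omega)
    have h6 := (mem_Icc.1 (hf E)).2
    omega

theorem t_W2 (h1 : S_W) (h2 : S_PAT) (h3 : S_SUBW) : S_W2 := by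
  intro z t ht hz
  obtain ⟨σ, hσ, hmu⟩ := reduce h1 h2 z (Icc 1 (2 * t + 2)) (w2_gp hz) (2 * t + 2)
    (by rw [Nat.card_Icc]; omega) (by omega)
    (fun k σ hk hk2 => by
      rw [g_eq hz]
      exact middle h3 t (by omega) k σ hk hk2)
  refine ⟨σ, hσ, ?_⟩
  rw [hmu]
  push_cast
  linarith [(by exact_mod_cast ht : (2 : ℤ) ≤ t)]

end Pool.Agent.W304.MF
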